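import Pool.Agent.H74.RCM.Final

/-!
MP_0c55a2_pr. Connection probabilities of two independent sourceless random currents.

The probability that `A` and `B` are connected in `n₁ + n₂` is non-decreasing in the coupling
constant of each good edge: an edge which is not inside the part of the graph outside `A ∪ B` from
which both `A` and `B` can be reached, or which is a bridge, or which is the only edge inside this
part. Proof (Pool/Agent/H74/RCM/Stmts.lean, the docstrings): for an edge `xy` the derivative is
`2 (λ P(D) - X(D))` up to a positive factor, `D` the event that `A`, `B` are not connected, `X` the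
same weight with sources `x, y` in one current. For an edge touching `A` explore the cluster of `B`
and use the second Griffiths inequality. For a unique free edge write
`1_D = 1[D, x not in C_A] + 1[D, x not in C_B] - 1[D, x not in both]`, explore the clusters in the
graph without `x`, and use `λ ≥ (p + r)/(1 + p r)` (two copies glued along the free vertices, second
Griffiths inequality) and `Z(U+x)² - Z(U+x; xy)² ≥ Z(U)²` (Cauchy-Schwarz).
-/

set_option autoImplicit false

namespace Pool.Agent.Results.MP_0c55a2_pr.GoodEdges

open Pool.RCM

/-- The connection probability is monotone in the couplings of good edges; on the lattice, `f_{A,B}`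
is non-decreasing if all edges are good. -/
theorem result :
    (∀ (V E : Type) [Fintype V] [Fintype E] (a b : E → V) (J J' : E → ℝ) (A B : Set V),
      (∀ e, a e ≠ b e) → (∀ e, 0 ≤ J e) → (∀ e, J e ≤ J' e) →
      (∀ e, J e ≠ J' e → Good a b A B e) → PP a b J A B ≤ PP a b J' A B) ∧
    (∀ (d : ℕ) (Λ : Finset (Fin d → ℤ)) (A B : Set Λ),
      (∀ e : NN Λ, Good (na Λ) (nb Λ) A B e) → MonotoneOn (fAB Λ A B) (Set.Ici 0)) :=
  ⟨fun V E _ _ a b J J' A B h1 h2 h3 h4 => th2 V E a b J J' A B h1 h2 h3 h4,
    fun _ Λ A B h => lattice Λ A B h⟩

end Pool.Agent.Results.MP_0c55a2_pr.GoodEdges
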